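import Mathlib
import Pool.Agent.H692R2.Eq6

/-!
# Explicit equidominating structures
-/

namespace Pool.Agent.Y602.ED

open Finset Classical Pool.Agent.H692R2.Equi

section gen

variable {V : Type*} [Fintype V] {G : SimpleGraph V}

/-- the digit of the weight of `x` -/
noncomputable def dg (G : SimpleGraph V) {N : ℕ} (e : V × V ≃ Fin N) (i : ℕ) (x : V) : ℕ :=
  if hi : i < N then bw G (e.symm ⟨i, hi⟩).1 (e.symm ⟨i, hi⟩).2 x else 0

/-- the digit of the target -/
noncomputable def tg (G : SimpleGraph V) {N : ℕ} (e : V × V ≃ Fin N) (i : ℕ) : ℕ :=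
  if hi : i < N then bt G (e.symm ⟨i, hi⟩).1 (e.symm ⟨i, hi⟩).2 else 0

/-- the weight of `x` -/
noncomputable def wt (G : SimpleGraph V) {N : ℕ} (e : V × V ≃ Fin N) (x : V) : ℕ :=
  ∑ i ∈ Finset.range N, dg G e i x * (2 * Fintype.card V + 3) ^ i

/-- the target -/
noncomputable def tt (G : SimpleGraph V) {N : ℕ} (e : V × V ≃ Fin N) : ℕ :=
  ∑ i ∈ Finset.range N, tg G e i * (2 * Fintype.card V + 3) ^ i

theorem crit_explicit (h : Crit G) {N : ℕ} (e : V × V ≃ Fin N) : IsStructure G (wt G e) (tt G e) := by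
  obtain ⟨⟨x0, _⟩, hcov, hst⟩ := h
  let B := 2 * Fintype.card V + 3
  have hdg : ∀ i x, dg G e i x ≤ 2 := by
    intro i x
    simp only [dg]
    split_ifs
    · exact bw_le _ _ _
    · omega
  have hdgS : ∀ (S : Finset V) i, ∑ x ∈ S, dg G e i x < B := by
    intro S i
    calc ∑ x ∈ S, dg G e i x ≤ ∑ _x ∈ S, 2 := Finset.sum_le_sum fun x _ => hdg i x
      _ = S.card * 2 := by rw [Finset.sum_const, smul_eq_mul]
      _ ≤ Fintype.card V * 2 := Nat.mul_le_mul_right _ (Finset.card_le_univ S)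
      _ < B := by simp only [B]; omega
  have htg : ∀ i, tg G e i < B := by
    intro i
    simp only [tg, bt, B]
    split_ifs <;> omega
  have hsumeq : ∀ S : Finset V, ∑ x ∈ S, (∑ i ∈ Finset.range N, dg G e i x * B ^ i) =
      ∑ i ∈ Finset.range N, (∑ x ∈ S, dg G e i x) * B ^ i := by
    intro S
    rw [Finset.sum_comm]
    exact Finset.sum_congr rfl fun i _ => by rw [Finset.sum_mul]
  have hB1 : 1 ≤ B := by simp only [B]; omega
  refine ⟨?_, ?_, ?_⟩
  · intro x
    obtain ⟨v, w, hb, hx⟩ := hcov x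
    have hi : (e (v, w) : ℕ) < N := (e (v, w)).2
    have h1 : 1 ≤ dg G e (e (v, w)) x := by
      simp only [dg, dif_pos hi, Fin.eta, Equiv.symm_apply_apply]
      exact bw_pos hb hx
    calc 1 ≤ dg G e (e (v, w)) x * B ^ (e (v, w) : ℕ) := Nat.mul_pos h1 (Nat.pow_pos hB1)
      _ ≤ _ := Finset.single_le_sum (f := fun i => dg G e i x * B ^ i) (fun _ _ => Nat.zero_le _)
        (Finset.mem_range.2 hi)
  · obtain ⟨v, w, hb, hx⟩ := hcov x0
    have hi : (e (v, w) : ℕ) < N := (e (v, w)).2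
    have h1 : 1 ≤ tg G e (e (v, w)) := by
      simp only [tg, dif_pos hi, Fin.eta, Equiv.symm_apply_apply, bt, if_pos hb]
      omega
    calc 1 ≤ tg G e (e (v, w)) * B ^ (e (v, w) : ℕ) := Nat.mul_pos h1 (Nat.pow_pos hB1)
      _ ≤ _ := Finset.single_le_sum (f := fun i => tg G e i * B ^ i) (fun _ _ => Nat.zero_le _)
        (Finset.mem_range.2 hi)
  · intro D
    rw [isMinDominating_iff]
    unfold wt tt
    rw [hsumeq]
    have key : (∑ i ∈ Finset.range N, (∑ x ∈ D, dg G e i x) * B ^ i =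
        ∑ i ∈ Finset.range N, tg G e i * B ^ i) ↔
        ∀ v w, Blk G v w → ∑ x ∈ D, bw G v w x = 2 := by
      constructor
      · intro h v w hb
        have h1 := digits_unique B N (fun i => ∑ x ∈ D, dg G e i x) (tg G e)
          (fun i _ => hdgS D i) (fun i _ => htg i) h (e (v, w)) (e (v, w)).2
        simpa only [dg, tg, dif_pos (e (v, w)).2, Fin.eta, Equiv.symm_apply_apply, bt,
          if_pos hb] using h1
      · intro h
        refine Finset.sum_congr rfl fun i hi => ?_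
        rw [Finset.mem_range] at hi
        congr 1
        simp only [dg, tg, dif_pos hi, bt]
        by_cases hb : Blk G (e.symm ⟨i, hi⟩).1 (e.symm ⟨i, hi⟩).2
        · rw [if_pos hb]; exact h _ _ hb
        · rw [if_neg hb]
          exact Finset.sum_eq_zero fun x _ => by
            unfold bw; rw [if_neg (fun hh => hb hh.1)]
    rw [key]
    exact ⟨fun hm v w hb => block_sum hst hm hb, fun hs => mds_of_block_sums hcov hst hs⟩

theorem tt_lt {N : ℕ} (e : V × V ≃ Fin N) : tt G e < (2 * Fintype.card V + 3) ^ N := by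
  unfold tt
  have htg : ∀ i, tg G e i ≤ 2 := by
    intro i
    simp only [tg, bt]
    split_ifs <;> omega
  have : ∀ (B : ℕ), 3 ≤ B → ∀ (a : ℕ → ℕ), (∀ i, a i ≤ 2) → ∀ M,
      ∑ i ∈ Finset.range M, a i * B ^ i < B ^ M := by
    intro B hB a ha M
    induction M with
    | zero => simp
    | succ M ih =>
      rw [Finset.sum_range_succ, pow_succ]
      have h1 : a M * B ^ M ≤ 2 * B ^ M := Nat.mul_le_mul_right _ (ha M)
      have h2 : B ^ M * 3 ≤ B ^ M * B := Nat.mul_le_mul_left _ hB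
      omega
  exact this _ (by omega) _ htg _

end gen

/-! ### graphs on an initial segment of the natural numbers -/

/-- the weight of a vertex in a block -/
noncomputable def rbw (n : ℕ) (A : ℕ → ℕ → Prop) (v w x : ℕ) : ℕ :=
  if RBlk n A v w ∧ RInQ A v w x then (if RTop n A v w x then 2 else 1) else 0

/-- the target of a block -/
noncomputable def rbt (n : ℕ) (A : ℕ → ℕ → Prop) (v w : ℕ) : ℕ := if RBlk n A v w then 2 else 0

/-- the weight -/
noncomputable def rwt (n : ℕ) (A : ℕ → ℕ → Prop) (x : ℕ) : ℕ :=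
  ((List.range (n * n)).map fun i => rbw n A (i / n) (i % n) x * (2 * n + 3) ^ i).sum

/-- the target -/
noncomputable def rtt (n : ℕ) (A : ℕ → ℕ → Prop) : ℕ :=
  ((List.range (n * n)).map fun i => rbt n A (i / n) (i % n) * (2 * n + 3) ^ i).sum

variable {n : ℕ} {A : ℕ → ℕ → Prop} {G : SimpleGraph (Fin n)}
  (hA : ∀ i j : Fin n, G.Adj i j ↔ A i j)

include hA

theorem rwt_eq (x : Fin n) : rwt n A x = wt G finProdFinEquiv x := by
  unfold rwt wt
  rw [← List.sum_toFinset _ List.nodup_range, List.toFinset_range, Fintype.card_fin]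
  refine Finset.sum_congr rfl fun i hi => ?_
  rw [Finset.mem_range] at hi
  congr 1
  unfold dg
  rw [dif_pos hi]
  unfold rbw bw
  have h1 := rblk_iff hA (Fin.divNat ⟨i, hi⟩) (Fin.modNat ⟨i, hi⟩)
  have h2 := rinq_iff hA (Fin.divNat ⟨i, hi⟩) (Fin.modNat ⟨i, hi⟩) x
  have h3 := rtop_iff hA (Fin.divNat ⟨i, hi⟩) (Fin.modNat ⟨i, hi⟩) x
  simp only [Fin.coe_divNat, Fin.coe_modNat] at h1 h2 h3
  have e1 : (finProdFinEquiv.symm (⟨i, hi⟩ : Fin (n * n))) =
      (Fin.divNat ⟨i, hi⟩, Fin.modNat ⟨i, hi⟩) := rfl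
  rw [e1]
  simp only [h1, h2, h3]

theorem rtt_eq : rtt n A = tt G finProdFinEquiv := by
  unfold rtt tt
  rw [← List.sum_toFinset _ List.nodup_range, List.toFinset_range, Fintype.card_fin]
  refine Finset.sum_congr rfl fun i hi => ?_
  rw [Finset.mem_range] at hi
  congr 1
  unfold tg
  rw [dif_pos hi]
  unfold rbt bt
  have h1 := rblk_iff hA (Fin.divNat ⟨i, hi⟩) (Fin.modNat ⟨i, hi⟩)
  simp only [Fin.coe_divNat, Fin.coe_modNat] at h1
  have e1 : (finProdFinEquiv.symm (⟨i, hi⟩ : Fin (n * n))) =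
      (Fin.divNat ⟨i, hi⟩, Fin.modNat ⟨i, hi⟩) := rfl
  rw [e1]
  simp only [h1]

end Pool.Agent.Y602.ED
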