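import Mathlib
import Pool.Agent.Y602.ED.Wt
import Pool.Agent.H583R2.NC.Par

/-!
# An equidominating structure is computed in polynomial time
-/

namespace Pool.Agent.Y602.ED

open Finset Classical Pool.Agent.NPC Pool.Agent.H692R2.Equi

/-- the weights and the target for a graph given by adjacency lists -/
noncomputable def eds (L : List (List ℕ)) : List ℕ × ℕ :=
  ((List.range L.length).map (rwt L.length (adjL L)), rtt L.length (adjL L))

theorem poly_rbw : Poly (fun p : List (List ℕ) × ℕ × ℕ × ℕ =>
    rbw p.1.length (adjL p.1) p.2.1 p.2.2.1 p.2.2.2) := by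
  unfold rbw
  refine PP.ite (PP.and ?_ ?_) (PP.ite ?_ (NPC.Poly.const _) (NPC.Poly.const _))
    (NPC.Poly.const _)
  · exact pBlk (n := fun M : List (List ℕ) => M.length) uPoly_len pp_adjL
      (g := fun p : List (List ℕ) × ℕ × ℕ × ℕ => p.1) (by fun_prop) (by fun_prop) (by fun_prop)
  · exact pInQ pp_adjL
      (g := fun p : List (List ℕ) × ℕ × ℕ × ℕ => p.1) (by fun_prop) (by fun_prop) (by fun_prop)
      (by fun_prop)
  · exact pTop (n := fun M : List (List ℕ) => M.length) uPoly_len pp_adjL
      (g := fun p : List (List ℕ) × ℕ × ℕ × ℕ => p.1) (by fun_prop) (by fun_prop) (by fun_prop)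
      (by fun_prop)

theorem poly_rbt : Poly (fun p : List (List ℕ) × ℕ × ℕ =>
    rbt p.1.length (adjL p.1) p.2.1 p.2.2) := by
  unfold rbt
  refine PP.ite ?_ (NPC.Poly.const _) (NPC.Poly.const _)
  exact pBlk (n := fun M : List (List ℕ) => M.length) uPoly_len pp_adjL
      (g := fun p : List (List ℕ) × ℕ × ℕ => p.1) (by fun_prop) (by fun_prop) (by fun_prop)

/-- powers whose exponent is bounded by a unary number -/
theorem poly_pow' {α : Type} [TEnc α] {l : α → List ℕ} (hl : Poly l) {b : α → ℕ} (hb : Poly b)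
    {m : α → ℕ} (hm : UPoly m) (hlm : ∀ a, ∀ i ∈ l a, i ≤ m a) :
    Poly (fun a => (l a).map (fun i => b a ^ i)) := by
  have h1 : Poly (fun p : α × ℕ => b p.1 ^ min p.2 (m p.1)) := by
    refine H583R2.NC.p_npow (hb.comp (Poly.fst Poly.id)) ?_
    refine UPoly.of_le (n := fun p : α × ℕ => m p.1) (Poly.min (Poly.snd Poly.id) ?_) ?_ ?_
    · exact hm.toPoly.comp (Poly.fst Poly.id)
    · exact hm.comp (Poly.fst Poly.id)
    · intro a; exact Nat.min_le_right _ _
  refine (NPC.Poly.map (F := fun (a : α) (i : ℕ) => b a ^ min i (m a)) hl h1).congr fun a => ?_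
  exact List.map_congr_left fun i hi => by rw [min_eq_left (hlm a i hi)]

theorem poly_rwt : Poly (fun p : List (List ℕ) × ℕ => rwt p.1.length (adjL p.1) p.2) := by
  unfold rwt
  have hn : UPoly (fun p : List (List ℕ) × ℕ => p.1.length) := uPoly_len.comp (Poly.fst Poly.id)
  have hr : Poly (fun p : List (List ℕ) × ℕ => List.range (p.1.length * p.1.length)) :=
    UPoly.range (hn.mul hn)
  have hB : Poly (fun p : List (List ℕ) × ℕ => 2 * p.1.length + 3) := by fun_prop
  have hpw := poly_pow' hr hB (hn.mul hn) (fun a i hi => (List.mem_range.1 hi).le)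
  have hd : Poly (fun p : List (List ℕ) × ℕ => (List.range (p.1.length * p.1.length)).map
      fun i => rbw p.1.length (adjL p.1) (i / p.1.length) (i % p.1.length) p.2) := by
    refine NPC.Poly.map (F := fun (p : List (List ℕ) × ℕ) (i : ℕ) => rbw p.1.length (adjL p.1)
      (i / p.1.length) (i % p.1.length) p.2) hr ?_
    exact poly_rbw.comp (f := fun q : (List (List ℕ) × ℕ) × ℕ =>
      (q.1.1, q.2 / q.1.1.length, q.2 % q.1.1.length, q.1.2)) (by fun_prop)
  have hz := NPC.Poly.zip hd hpw
  have hm := NPC.Poly.map (F := fun (_ : List (List ℕ) × ℕ) (x : ℕ × ℕ) => x.1 * x.2) hz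
    (by fun_prop)
  refine (NPC.Poly.sum hm).congr fun p => ?_
  congr 1
  rw [List.zip_map', List.map_map]
  rfl

theorem poly_rtt : Poly (fun L : List (List ℕ) => rtt L.length (adjL L)) := by
  unfold rtt
  have hn : UPoly (fun L : List (List ℕ) => L.length) := uPoly_len
  have hr : Poly (fun L : List (List ℕ) => List.range (L.length * L.length)) :=
    UPoly.range (hn.mul hn)
  have hB : Poly (fun L : List (List ℕ) => 2 * L.length + 3) := by fun_prop
  have hpw := poly_pow' hr hB (hn.mul hn) (fun a i hi => (List.mem_range.1 hi).le)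
  have hd : Poly (fun L : List (List ℕ) => (List.range (L.length * L.length)).map
      fun i => rbt L.length (adjL L) (i / L.length) (i % L.length)) := by
    refine NPC.Poly.map (F := fun (L : List (List ℕ)) (i : ℕ) => rbt L.length (adjL L)
      (i / L.length) (i % L.length)) hr ?_
    exact poly_rbt.comp (f := fun q : List (List ℕ) × ℕ =>
      (q.1, q.2 / q.1.length, q.2 % q.1.length)) (by fun_prop)
  have hz := NPC.Poly.zip hd hpw
  have hm := NPC.Poly.map (F := fun (_ : List (List ℕ)) (x : ℕ × ℕ) => x.1 * x.2) hz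
    (by fun_prop)
  refine (NPC.Poly.sum hm).congr fun p => ?_
  congr 1
  rw [List.zip_map', List.map_map]
  rfl

/-- the structure is computed in polynomial time -/
theorem poly_eds : Poly eds := by
  refine Poly.pair ?_ poly_rtt
  exact NPC.Poly.map (F := fun (L : List (List ℕ)) (x : ℕ) => rwt L.length (adjL L) x)
    (UPoly.range uPoly_len) poly_rwt

/-- it is correct -/
theorem eds_spec (L : List (List ℕ)) {n : ℕ} (G : SimpleGraph (Fin n)) (hL : IsAdjLists L G)
    (hG : Equidominating G) : (eds L).1.length = n ∧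
      IsStructure G (fun v => (eds L).1.getD v 0) (eds L).2 ∧
      (eds L).2 < (2 * n + 3) ^ (n * n) := by
  have hc := equidominating_iff.1 hG
  obtain ⟨hn, hL⟩ := hL
  subst hn
  have hA : ∀ i j : Fin L.length, G.Adj i j ↔ adjL L i j := by
    intro i j
    unfold adjL
    rw [hL i j]
    exact ⟨fun h => ⟨j.2, h⟩, fun h => h.2⟩
  have h := crit_explicit hc (finProdFinEquiv (m := L.length) (n := L.length))
  refine ⟨by simp [eds], ?_, ?_⟩
  · have e1 : (fun v : Fin L.length => (eds L).1.getD v 0) = wt G finProdFinEquiv := by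
      funext v
      rw [← rwt_eq hA v]
      unfold eds
      simp [List.getD_eq_getElem?_getD]
    rw [e1, show (eds L).2 = tt G finProdFinEquiv from rtt_eq hA]
    exact h
  · rw [show (eds L).2 = tt G finProdFinEquiv from rtt_eq hA]
    have := tt_lt (G := G) (finProdFinEquiv (m := L.length) (n := L.length))
    rwa [Fintype.card_fin] at this

/-! ### Exponential weights are needed -/

/-- the disjoint union of `m` edges -/
def mK2 (m : ℕ) : SimpleGraph (Fin m × Bool) where
  Adj x y := x.1 = y.1 ∧ x.2 ≠ y.2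
  symm := ⟨fun _ _ h => ⟨h.1.symm, h.2.symm⟩⟩
  loopless := ⟨fun _ h => h.2 rfl⟩

/-- the transversal given by a set of edges -/
def trv {m : ℕ} (S : Finset (Fin m)) : Finset (Fin m × Bool) :=
  Finset.univ.image fun i => (i, decide (i ∈ S))

theorem mem_trv {m : ℕ} (S : Finset (Fin m)) (i : Fin m) (b : Bool) :
    (i, b) ∈ trv S ↔ b = decide (i ∈ S) := by
  unfold trv
  rw [Finset.mem_image]
  constructor
  · rintro ⟨j, _, h⟩
    rw [Prod.mk.injEq] at h
    obtain ⟨rfl, h⟩ := h
    exact h.symm
  · rintro rfl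
    exact ⟨i, Finset.mem_univ _, rfl⟩

/-- the minimal dominating sets of `mK2` -/
theorem mds_mK2 {m : ℕ} (D : Finset (Fin m × Bool)) :
    IsMinDominating (mK2 m) D ↔ ∀ i, ((i, true) ∈ D ↔ (i, false) ∉ D) := by
  constructor
  · rintro ⟨h1, h2⟩ i
    constructor
    · intro ht hf
      refine h2 (D.erase (i, true)) (Finset.erase_ssubset ht) ?_
      rintro ⟨j, b⟩
      by_cases hj : j = i
      · subst hj
        cases b
        · exact Or.inl (Finset.mem_erase.2 ⟨by simp, hf⟩)
        · exact Or.inr ⟨(j, false), Finset.mem_erase.2 ⟨by simp, hf⟩, rfl, by simp⟩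
      · rcases h1 (j, b) with h | ⟨u, hu, ha⟩
        · exact Or.inl (Finset.mem_erase.2 ⟨by simp [hj], h⟩)
        · refine Or.inr ⟨u, Finset.mem_erase.2 ⟨?_, hu⟩, ha⟩
          rintro rfl
          exact hj ha.1
    · intro hf
      rcases h1 (i, true) with h | ⟨⟨j, b⟩, hu, ha⟩
      · exact h
      · obtain ⟨ha1, ha2⟩ := ha
        simp only at ha1 ha2
        subst ha1
        cases b
        · exact absurd hu hf
        · exact absurd rfl ha2
  · intro h
    refine ⟨?_, ?_⟩
    · rintro ⟨i, b⟩
      by_cases hb : (i, b) ∈ D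
      · exact Or.inl hb
      · refine Or.inr ⟨(i, !b), ?_, rfl, by cases b <;> simp⟩
        cases b
        · exact (h i).2 hb
        · by_contra hc
          exact hb ((h i).2 hc)
    · intro D' hD' hd
      obtain ⟨⟨i, b⟩, hi, hi'⟩ := Finset.exists_of_ssubset hD'
      rcases hd (i, b) with h' | ⟨⟨j, c⟩, hu, ha⟩
      · exact hi' h'
      · obtain ⟨ha1, ha2⟩ := ha
        simp only at ha1 ha2
        subst ha1
        have hc := hD'.1 hu
        cases b <;> cases c
        · exact ha2 rfl
        · exact (h i).1 hc hi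
        · exact (h i).1 hi hc
        · exact ha2 rfl

/-- every equidominating structure of a disjoint union of `m` edges has target at least
`2 ^ m - 1` -/
theorem target_ge {m : ℕ} {ω : Fin m × Bool → ℕ} {t : ℕ} (h : IsStructure (mK2 m) ω t) :
    2 ^ m ≤ t + 1 := by
  obtain ⟨hpos, ht, hS⟩ := h
  -- the two ends of an edge have the same weight
  have hmds : ∀ S : Finset (Fin m), ∑ x ∈ trv S, ω x = t := by
    intro S
    refine (hS _).1 ((mds_mK2 _).2 fun i => ?_)
    rw [mem_trv, mem_trv]
    by_cases hi : i ∈ S <;> simp [hi]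
  have hsum : ∀ S : Finset (Fin m), ∑ x ∈ trv S, ω x =
      ∑ i, (if i ∈ S then ω (i, true) else ω (i, false)) := by
    intro S
    unfold trv
    rw [Finset.sum_image (fun i _ j _ hij => (Prod.mk.inj hij).1)]
    refine Finset.sum_congr rfl fun i _ => ?_
    by_cases hi : i ∈ S <;> simp [hi]
  have hend : ∀ i, ω (i, true) = ω (i, false) := by
    intro i
    have h1 := hmds ∅
    have h2 := hmds {i}
    rw [hsum] at h1 h2
    rw [← Finset.add_sum_erase _ _ (Finset.mem_univ i)] at h1 h2
    have h3 : ∑ x ∈ Finset.univ.erase i, (if x ∈ ({i} : Finset (Fin m)) then ω (x, true)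
        else ω (x, false)) = ∑ x ∈ Finset.univ.erase i, (if x ∈ (∅ : Finset (Fin m)) then
        ω (x, true) else ω (x, false)) := by
      refine Finset.sum_congr rfl fun x hx => ?_
      have := Finset.ne_of_mem_erase hx
      simp [this]
    rw [h3] at h2
    simp only [Finset.mem_singleton, Finset.notMem_empty, if_true, if_false] at h1 h2
    omega
  have htot : ∑ i, ω (i, true) = t := by
    rw [← hmds Finset.univ, hsum]
    exact Finset.sum_congr rfl fun i _ => by simp
  -- subset sums are distinct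
  have hinj : Function.Injective fun S : Finset (Fin m) => ∑ i ∈ S, ω (i, true) := by
    intro S T hST
    simp only at hST
    -- the multiset `1 + [i ∈ S] - [i ∈ T]`
    let D : Finset (Fin m × Bool) := Finset.univ.filter fun x =>
      (x.1 ∈ S ∧ x.1 ∉ T) ∨ ((x.1 ∈ S ↔ x.1 ∈ T) ∧ x.2 = true)
    have hDs : ∑ x ∈ D, ω x = t := by
      have e1 : ∑ x ∈ D, ω x = ∑ i, ((if i ∈ S ∧ i ∉ T then ω (i, false) else 0) +
          (if (i ∈ S ∧ i ∉ T) ∨ (i ∈ S ↔ i ∈ T) then ω (i, true) else 0)) := by
        rw [Finset.sum_filter, Fintype.sum_prod_type]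
        refine Finset.sum_congr rfl fun i _ => ?_
        rw [Fintype.sum_bool, add_comm]
        simp
      have e2 : ∀ i, ((if i ∈ S ∧ i ∉ T then ω (i, false) else 0) +
          (if (i ∈ S ∧ i ∉ T) ∨ (i ∈ S ↔ i ∈ T) then ω (i, true) else 0)) +
          (if i ∈ T then ω (i, true) else 0) =
          ω (i, true) + (if i ∈ S then ω (i, true) else 0) := by
        intro i
        rw [hend i]
        by_cases h1 : i ∈ S <;> by_cases h2 : i ∈ T <;> simp [h1, h2]
      have e3 := Finset.sum_congr rfl fun i (_ : i ∈ (Finset.univ : Finset (Fin m))) => e2 i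
      rw [Finset.sum_add_distrib, ← e1, Finset.sum_add_distrib, htot] at e3
      simp only [Finset.sum_ite_mem, Finset.univ_inter] at e3
      omega
    have hD := (mds_mK2 D).1 ((hS D).2 hDs)
    ext i
    have := hD i
    simp only [D, Finset.mem_filter, Finset.mem_univ, true_and, Bool.false_eq_true, and_false,
      or_false, and_true] at this
    tauto
  have hle : ∀ S : Finset (Fin m), ∑ i ∈ S, ω (i, true) ∈ Finset.range (t + 1) := by
    intro S
    rw [Finset.mem_range, Nat.lt_succ_iff, ← htot]
    exact Finset.sum_le_sum_of_subset (Finset.subset_univ _)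
  have := Finset.card_le_card_of_injOn (s := (Finset.univ : Finset (Finset (Fin m))))
    (t := Finset.range (t + 1)) (fun S => ∑ i ∈ S, ω (i, true)) (fun S _ => hle S)
    (fun S _ T _ hST => hinj hST)
  rwa [Finset.card_univ, Fintype.card_finset, Fintype.card_fin, Finset.card_range] at this

theorem digits_one : ∀ (m : ℕ) (c : ℕ → ℕ), (∀ i < m, c i ≤ 2) →
    (∑ i ∈ Finset.range m, c i * 2 ^ i) + 1 = 2 ^ m → ∀ i < m, c i = 1 := by
  intro m
  induction m with
  | zero => intro c _ _ i hi; omega
  | succ m ih =>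
    intro c hc h
    rw [Finset.sum_range_succ'] at h
    simp only [pow_succ, pow_zero, mul_one] at h
    have e1 : ∑ i ∈ Finset.range m, c (i + 1) * (2 ^ i * 2) =
        (∑ i ∈ Finset.range m, c (i + 1) * 2 ^ i) * 2 := by
      rw [Finset.sum_mul]
      exact Finset.sum_congr rfl fun i _ => by ring
    rw [e1] at h
    have h0 := hc 0 (by omega)
    have h1 : c 0 = 1 := by omega
    intro i hi
    rcases i with _ | i
    · exact h1
    · exact ih (fun i => c (i + 1)) (fun i hi => hc _ (by omega)) (by omega) i (by omega)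

/-- the powers of two are an equidominating structure of a disjoint union of `m` edges -/
theorem structure_mK2 {m : ℕ} (hm : 0 < m) :
    IsStructure (mK2 m) (fun x => 2 ^ (x.1 : ℕ)) (2 ^ m - 1) := by
  have hp : 2 ≤ 2 ^ m := by
    calc 2 = 2 ^ 1 := rfl
      _ ≤ 2 ^ m := Nat.pow_le_pow_right (by norm_num) hm
  refine ⟨fun x => Nat.one_le_two_pow, by omega, fun D => ?_⟩
  rw [mds_mK2]
  -- the number of ends of the edge `i` in `D`
  let c : ℕ → ℕ := fun i => if h : i < m then
    (if (⟨i, h⟩, true) ∈ D then 1 else 0) + (if ((⟨i, h⟩ : Fin m), false) ∈ D then 1 else 0) else 0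
  have hsum : ∑ x ∈ D, 2 ^ (x.1 : ℕ) = ∑ i ∈ Finset.range m, c i * 2 ^ i := by
    have e1 : ∑ x ∈ D, 2 ^ (x.1 : ℕ) = ∑ x : Fin m × Bool, if x ∈ D then 2 ^ (x.1 : ℕ) else 0 := by
      rw [← Finset.sum_filter]; simp
    rw [e1, Fintype.sum_prod_type, Finset.sum_range]
    refine Finset.sum_congr rfl fun i _ => ?_
    rw [Fintype.sum_bool]
    simp only [c, dif_pos i.2, Fin.eta]
    by_cases h1 : (i, true) ∈ D <;> by_cases h2 : (i, false) ∈ D <;> simp [h1, h2] <;> ring
  have hc : ∀ i < m, c i ≤ 2 := by
    intro i hi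
    simp only [c, dif_pos hi]
    split_ifs <;> omega
  have hone : (∑ x ∈ D, 2 ^ (x.1 : ℕ) = 2 ^ m - 1) ↔ ∀ i < m, c i = 1 := by
    rw [hsum]
    constructor
    · intro h
      exact digits_one m c hc (by omega)
    · intro h
      rw [Finset.sum_congr rfl fun i hi => by rw [h i (Finset.mem_range.1 hi), one_mul]]
      have := Nat.geomSum_eq (le_refl 2) m
      simpa using this
  rw [hone]
  constructor
  · intro h i hi
    have := h ⟨i, hi⟩
    simp only [c, dif_pos hi]
    by_cases h1 : ((⟨i, hi⟩ : Fin m), true) ∈ D <;> by_cases h2 : ((⟨i, hi⟩ : Fin m), false) ∈ D <;>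
      simp_all
  · intro h i
    have := h i i.2
    simp only [c, dif_pos i.2, Fin.eta] at this
    by_cases h1 : (i, true) ∈ D <;> by_cases h2 : (i, false) ∈ D <;> simp_all

end Pool.Agent.Y602.ED
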