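import Mathlib
import Pool.Agent.H692R2.Eq5

/-!
# A first-order sentence that defines the equidominating graphs
-/

namespace Pool.Agent.Y602.ED

open FirstOrder FirstOrder.Language Pool.Agent.H692R2.Equi

/-- graph formulas without free variables whose bound variables are numbered `0, …, n-1` -/
abbrev GF (n : ℕ) := Language.graph.BoundedFormula Empty n

variable {V : Type*} {n : ℕ}

/-- truth of a formula in a graph, the variables having the values `xs` -/
def Tr (G : SimpleGraph V) (φ : GF n) (xs : Fin n → V) : Prop :=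
  @BoundedFormula.Realize _ V G.structure _ _ φ (fun x => x.elim) xs

theorem elim_eq (f : Empty → V) : f = fun x => x.elim := by
  funext x; exact x.elim

variable {G : SimpleGraph V} {xs : Fin n → V}

theorem tr_imp {φ ψ : GF n} : Tr G (φ.imp ψ) xs ↔ (Tr G φ xs → Tr G ψ xs) := Iff.rfl

theorem tr_or {φ ψ : GF n} : Tr G (φ ⊔ ψ) xs ↔ (Tr G φ xs ∨ Tr G ψ xs) :=
  @BoundedFormula.realize_sup _ V G.structure _ _ _ _ _ _

theorem tr_and {φ ψ : GF n} : Tr G (φ ⊓ ψ) xs ↔ (Tr G φ xs ∧ Tr G ψ xs) :=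
  @BoundedFormula.realize_inf _ V G.structure _ _ _ _ _ _

theorem tr_not {φ : GF n} : Tr G (∼φ) xs ↔ ¬ Tr G φ xs :=
  @BoundedFormula.realize_not _ V G.structure _ _ _ _ _

theorem tr_all {φ : GF (n + 1)} : Tr G (∀' φ) xs ↔ ∀ a, Tr G φ (Fin.snoc xs a) := Iff.rfl

theorem tr_ex {φ : GF (n + 1)} : Tr G (∃' φ) xs ↔ ∃ a, Tr G φ (Fin.snoc xs a) :=
  @BoundedFormula.realize_ex _ V G.structure _ _ _ _ _

/-- equality or adjacency of two variables -/
def fNb (i j : Fin n) : GF n :=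
  ((&i : Language.graph.Term (Empty ⊕ Fin n)) =' &j) ⊔
    adj.boundedFormula₂ (&i : Language.graph.Term (Empty ⊕ Fin n)) &j

/-- equality of two variables -/
def fEq (i j : Fin n) : GF n := ((&i : Language.graph.Term (Empty ⊕ Fin n)) =' &j)

theorem tr_eq (i j : Fin n) : Tr G (fEq i j) xs ↔ xs i = xs j := Iff.rfl

theorem tr_nb (i j : Fin n) : Tr G (fNb i j) xs ↔ nb G (xs i) (xs j) := by
  unfold fNb nb
  rw [tr_or]
  refine or_congr Iff.rfl ?_
  unfold Tr
  letI := G.structure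
  rw [BoundedFormula.realize_rel₂]
  rfl

/-- membership in `N[v] ∪ {w}` -/
def fInQ (v w x : Fin n) : GF n := fNb v x ⊔ fEq x w

theorem tr_inQ (v w x : Fin n) : Tr G (fInQ v w x) xs ↔ InQ G (xs v) (xs w) (xs x) := by
  unfold fInQ InQ
  rw [tr_or, tr_nb, tr_eq]

/-- one step up -/
abbrev u (i : Fin n) : Fin (n + 1) := i.castSucc

/-- blocks -/
def fBlk (v w : Fin n) : GF n :=
  ∀' ∀' (fInQ (u (u v)) (u (u w)) (u (Fin.last n))).imp
    ((fInQ (u (u v)) (u (u w)) (Fin.last (n + 1))).imp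
      (fNb (u (Fin.last n)) (Fin.last (n + 1)) ⊔
        ∀' ((fInQ (u (u (Fin.last n))) (u (Fin.last (n + 1))) (Fin.last (n + 2))).imp
            (fInQ (u (u (u v))) (u (u (u w))) (Fin.last (n + 2))) ⊓
          (fInQ (u (u (u v))) (u (u (u w))) (Fin.last (n + 2))).imp
            (fInQ (u (u (Fin.last n))) (u (Fin.last (n + 1))) (Fin.last (n + 2))))))

theorem tr_blk (v w : Fin n) : Tr G (fBlk v w) xs ↔ Blk G (xs v) (xs w) := by
  unfold fBlk Blk
  simp only [tr_all, tr_imp, tr_or, tr_and, tr_inQ, tr_nb, u, Fin.snoc_castSucc, Fin.snoc_last]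
  refine forall_congr' fun x => forall_congr' fun y => forall_congr' fun h1 =>
    forall_congr' fun h2 => or_congr Iff.rfl (forall_congr' fun z => ?_)
  constructor
  · rintro ⟨h, h'⟩; exact ⟨h, h'⟩
  · intro h; exact ⟨h.1, h.2⟩

/-- top vertices of a block -/
def fTop (v w a : Fin n) : GF n :=
  fInQ v w a ⊓ ∀' (fInQ (u v) (u w) (Fin.last n)).imp (fNb (u a) (Fin.last n))

theorem tr_top (v w a : Fin n) : Tr G (fTop v w a) xs ↔ H692R2.Equi.Top G (xs v) (xs w) (xs a) := by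
  unfold fTop H692R2.Equi.Top
  simp only [tr_all, tr_imp, tr_or, tr_and, tr_inQ, tr_nb, u, Fin.snoc_castSucc, Fin.snoc_last]

/-- pairs contained in minimal dominating sets -/
def fPair (a b : Fin n) : GF n :=
  ∃' ∃' (fNb (u (u a)) (u (Fin.last n)) ⊓ (∼(fNb (u (u b)) (u (Fin.last n))) ⊓
    (fNb (u (u b)) (Fin.last (n + 1)) ⊓ (∼(fNb (u (u a)) (Fin.last (n + 1))) ⊓
      ∀' (fNb (u (u (u a))) (Fin.last (n + 2)) ⊔ (fNb (u (u (u b))) (Fin.last (n + 2)) ⊔
        ∃' (fNb (Fin.last (n + 3)) (u (Fin.last (n + 2))) ⊓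
          (∼(fNb (Fin.last (n + 3)) (u (u (u (Fin.last n))))) ⊓
            ∼(fNb (Fin.last (n + 3)) (u (u (Fin.last (n + 1)))))))))))))

theorem tr_pair (a b : Fin n) : Tr G (fPair a b) xs ↔ Pair G (xs a) (xs b) := by
  unfold fPair Pair
  simp only [tr_all, tr_ex, tr_not, tr_or, tr_and, tr_nb, u, Fin.snoc_castSucc, Fin.snoc_last]

/-- there is a vertex -/
def fC1 : GF 0 := ∃' (fEq (Fin.last 0) (Fin.last 0))

/-- the blocks cover all vertices -/
def fC2 : GF 0 :=
  ∀' ∃' ∃' (fBlk (u (Fin.last 1)) (Fin.last 2) ⊓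
    fInQ (u (Fin.last 1)) (Fin.last 2) (u (u (Fin.last 0))))

/-- no minimal dominating set contains two tops of a block -/
def fC3 : GF 0 :=
  ∀' ∀' ∀' ∀' ((fBlk (u (u (u (Fin.last 0)))) (u (u (Fin.last 1)))).imp
    ((fTop (u (u (u (Fin.last 0)))) (u (u (Fin.last 1))) (u (Fin.last 2))).imp
      ((fTop (u (u (u (Fin.last 0)))) (u (u (Fin.last 1))) (Fin.last 3)).imp
        ((∼(fEq (u (Fin.last 2)) (Fin.last 3))).imp (∼(fPair (u (Fin.last 2)) (Fin.last 3)))))))

/-- the sentence -/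
def fCrit : Language.graph.Sentence := fC1 ⊓ (fC2 ⊓ fC3)

theorem tr_crit (xs : Fin 0 → V) : Tr G (fCrit : GF 0) xs ↔ Crit G := by
  unfold fCrit fC1 fC2 fC3 Crit
  rw [tr_and, tr_and]
  refine and_congr ?_ (and_congr ?_ ?_)
  · simp only [tr_ex, tr_eq]
  · simp only [tr_all, tr_ex, tr_and, tr_blk, tr_inQ, u, Fin.snoc_castSucc, Fin.snoc_last]
  · simp only [tr_all, tr_imp, tr_not, tr_blk, tr_top, tr_pair, tr_eq, u, Fin.snoc_castSucc,
      Fin.snoc_last]

theorem realize_crit (G : SimpleGraph V) :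
    @Sentence.Realize _ V G.structure fCrit ↔ Crit G := by
  rw [← tr_crit (G := G) (default : Fin 0 → V)]
  unfold Tr
  rw [show (fun x : Empty => (x.elim : V)) = default from (elim_eq _).symm]
  rfl

end Pool.Agent.Y602.ED
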